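import Pool.Agent.MP_c69980_ag.H4.SpecC
import Pool.Agent.MP_c69980_ag.H66.Rep
import Pool.Agent.MP_c69980_ag.H26.Basic
import Pool.Agent.MP_c69980_ag.H60.Lift

/-!
The height inequality for a multivalued map with many points on a hyperplane.
-/

set_option autoImplicit false

namespace Pool.Agent.MP_c69980_ag.H55

open Metric Filter Topology MeasureTheory Set Real H4 H4.R1
open H60 (PS rep_mk)

variable {n δ : ℕ}

/-- The squared distance to a hyperplane. -/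
noncomputable def mm (l y : Fin n → ℂ) : ℝ := ‖l ⬝ᵥ y‖ ^ 2 / H4.sq y

lemma mm_nn (l y : Fin n → ℂ) : 0 ≤ mm l y := div_nonneg (by positivity) (sq_nn y)

lemma mm_le (l y : Fin n → ℂ) : mm l y ≤ H4.sq (star l) := by
  refine div_le_of_le_mul₀ (sq_nn y) (sq_nn _) ?_
  have := cs (star l) y
  rwa [show ip y (star l) = l ⬝ᵥ y by simp [ip, dotProduct, mul_comm]] at this

lemma mm_mk (l : Fin n → ℂ) {y : Fin n → ℂ} (h : y ≠ 0) :
    mm l (Projectivization.mk ℂ y h).rep = mm l y := by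
  obtain ⟨t, t0, ht⟩ := rep_mk h
  rw [ht, mm, mm, dotProduct_smul, sq_smul, norm_smul, mul_pow,
    mul_div_mul_left _ _ (pow_ne_zero 2 (norm_ne_zero_iff.2 t0))]

lemma tn_eq {F : ℂ → Fin n → ℂ} (hF : Crv (ball 0 1) F) {r : ℝ} (h0 : 0 < r) (h1 : r < 1) :
    TN (lam F) r = π / 2 * (circleAverage (fun z => log (H4.sq (F z))) 0 r - log (H4.sq (F 0))) := by
  obtain ⟨a1, -, a3⟩ := lapQ n _ F isOpen_ball hF
  have e : ∫ z in ball (0 : ℂ) r, log (r / ‖z - 0‖) * lap (fun z => log (H4.sq (F z))) z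
      = 4 * TN (lam F) r := by
    rw [TN, ← integral_const_mul]
    refine setIntegral_congr_fun measurableSet_ball fun z hz => ?_
    simp only [sub_zero, a3 z (ball_subset_ball h1.le hz)]
    ring
  rw [(rep _ _ 0 r isOpen_ball a1 h0 (closedBall_subset_ball h1)).2, e]
  field_simp
  ring

lemma jen {g : ℂ → ℂ} {u : ℂ → ℝ} {r : ℝ} (hr : 0 < r) (ha : AnalyticOnNhd ℂ g (closedBall 0 r))
    (h0 : g 0 ≠ 0) (hu : ContinuousOn u (sphere 0 r))
    (h : ∀ z ∈ sphere (0 : ℂ) r, ‖g z‖ ^ 2 ≤ exp (u z)) :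
    log (‖g 0‖ ^ 2) ≤ circleAverage u 0 r := by
  obtain ⟨c, hc⟩ := (isCompact_sphere (0 : ℂ) r).exists_bound_of_continuousOn hu
  have e : ∀ z, g z ≠ 0 → log ‖(exp c : ℂ) * g z‖ = c + log (‖g z‖ ^ 2) / 2 := fun z hz => by
    rw [norm_mul, Complex.norm_real, norm_of_nonneg (exp_pos c).le,
      log_mul (exp_pos c).ne' (norm_ne_zero_iff.2 hz), log_exp, log_pow]
    push_cast
    ring
  have ha' : AnalyticOnNhd ℂ (fun z => (exp c : ℂ) * g z) (closedBall 0 r) :=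
    analyticOnNhd_const.mul ha
  have h1 := H26.jensen hr ha' (mul_ne_zero (by simp) h0)
  have iu : CircleIntegrable u 0 r := hu.circleIntegrable hr.le
  have hm : MeromorphicOn (fun z => (exp c : ℂ) * g z) (sphere 0 |r|) := by
    rw [abs_of_pos hr]; exact (ha'.mono sphere_subset_closedBall).meromorphicOn
  have h2 := circleAverage_mono hm.circleIntegrable_log_norm
    ((circleIntegrable_const c 0 r).add (iu.const_smul (a := (1 / 2 : ℝ)))) fun z hz => by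
      rw [abs_of_pos hr] at hz
      have b1 := abs_le.1 (hc z hz)
      simp only [Pi.add_apply, Pi.smul_apply, smul_eq_mul]
      by_cases g0 : g z = 0
      · rw [g0, mul_zero, norm_zero, log_zero]
        linarith [b1.1, b1.2]
      · have := (log_le_iff_le_exp (by positivity)).2 (h z hz)
        rw [e z g0]
        linarith
  rw [circleAverage_add (circleIntegrable_const c 0 r) iu.const_smul, circleAverage_const,
    circleAverage_smul, smul_eq_mul] at h2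
  rw [circleAverage_fun_sub hm.circleIntegrable_log_norm (circleIntegrable_const _ 0 r),
    circleAverage_const, e 0 h0] at h1
  linarith

lemma comb (A : ℂ → ℝ → Prop) (L : ℝ) (h1 : ∀ t x, A t x → x ≤ L) (τ : Finset ℂ)
    (h : ∀ s ∈ τ, ∃ K, ∀ᶠ t in 𝓝 s, ∀ x, A t x → x ≤ K * ‖t - s‖ ^ 2) :
    ∃ K, 0 < K ∧ ∀ t x, A t x → x ≤ K * ∏ s ∈ τ, (‖t - s‖ ^ 2 / (1 + ‖t‖ ^ 2)) := by
  classical
  induction τ using Finset.induction_on with
  | empty => exact ⟨max L 1, by positivity, fun t x a => by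
      simpa using Or.inl (h1 t x a)⟩
  | insert s T hs ih =>
    obtain ⟨K1, k1, ih⟩ := ih fun s hs => h s (Finset.mem_insert_of_mem hs)
    obtain ⟨K, hK⟩ := h s (Finset.mem_insert_self _ _)
    set Q : ℂ → ℝ := fun t => (∏ s ∈ T, (‖t - s‖ ^ 2 / (1 + ‖t‖ ^ 2))) / (1 + ‖t‖ ^ 2) with hQ
    have Qc : Continuous Q :=
      (continuous_finsetProd _ fun s _ => Continuous.div (by fun_prop) (by fun_prop)
        fun t => by positivity).div (by fun_prop) fun t => by positivity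
    have Q0 : 0 < Q s := div_pos (Finset.prod_pos fun s' hs' => by
      have : s - s' ≠ 0 := sub_ne_zero.2 fun e => hs (e ▸ hs')
      positivity) (by positivity)
    obtain ⟨ε, ε0, hε⟩ := Metric.eventually_nhds_iff.1
      (hK.and (Qc.continuousAt.eventually (lt_mem_nhds (half_lt_self Q0))))
    set M := (1 + 2 * ‖s‖ ^ 2) / ε ^ 2 + 2 with hM
    refine ⟨|K| / (Q s / 2) + K1 * M, by positivity, fun t x a => ?_⟩
    have e : ∏ s ∈ insert s T, (‖t - s‖ ^ 2 / (1 + ‖t‖ ^ 2)) = ‖t - s‖ ^ 2 * Q t := by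
      rw [Finset.prod_insert hs, hQ]; ring
    have Qt : 0 ≤ Q t := by positivity
    rw [e, add_mul]
    rcases lt_or_ge (dist t s) ε with b | b
    · obtain ⟨b1, b2⟩ := hε b
      refine (b1 x a).trans (le_add_of_le_of_nonneg ?_ (by positivity))
      calc K * ‖t - s‖ ^ 2 ≤ |K| * ‖t - s‖ ^ 2 := by gcongr; exact le_abs_self K
        _ = |K| / (Q s / 2) * (‖t - s‖ ^ 2 * (Q s / 2)) := by field_simp
        _ ≤ _ := by gcongr
    · refine (ih t x a).trans (le_add_of_nonneg_of_le (by positivity) ?_)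
      rw [dist_eq_norm] at b
      have c1 : ‖t‖ ≤ ‖s‖ + ‖t - s‖ := by simpa using norm_add_le s (t - s)
      have c2 : 1 + 2 * ‖s‖ ^ 2 ≤ (1 + 2 * ‖s‖ ^ 2) / ε ^ 2 * ‖t - s‖ ^ 2 := by
        rw [div_mul_eq_mul_div, le_div_iff₀ (by positivity)]; gcongr
      have c3 : 1 + ‖t‖ ^ 2 ≤ M * ‖t - s‖ ^ 2 := by
        have := pow_le_pow_left₀ (norm_nonneg t) c1 2
        rw [hM]
        nlinarith [sq_nonneg (‖s‖ - ‖t - s‖)]
      calc K1 * ∏ s ∈ T, (‖t - s‖ ^ 2 / (1 + ‖t‖ ^ 2)) = K1 * ((1 + ‖t‖ ^ 2) * Q t) := by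
            rw [hQ]; field_simp
        _ ≤ K1 * (M * ‖t - s‖ ^ 2 * Q t) := by gcongr
        _ = _ := by ring

variable {S : Finset ℂ} {Y : ℂ → Set (PS n)} {l : Fin n → ℂ}

lemma dot_diff {F : ℂ → Fin n → ℂ} {O : Set ℂ} (h : DifferentiableOn ℂ F O) :
    DifferentiableOn ℂ (fun z => l ⬝ᵥ F z) O :=
  DifferentiableOn.fun_sum fun i _ => (differentiableOn_pi.1 h i).const_mul _

lemma near (hS : Sheets S δ Y) {s : ℂ} (hs : s ∉ S) {y : PS n} (hy : y ∈ Y s)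
    (h0 : l ⬝ᵥ y.rep = 0) : ∃ K, ∀ᶠ t in 𝓝 s, ∃ y ∈ Y t, mm l y.rep ≤ K * ‖t - s‖ ^ 2 := by
  obtain ⟨ε, ε0, hε⟩ := Metric.isOpen_iff.1 S.finite_toSet.isClosed.isOpen_compl s hs
  have e0 : ((ε / 2 : ℝ) : ℂ) ≠ 0 := Complex.ofReal_ne_zero.2 (half_pos ε0).ne'
  have e1 : ‖((ε / 2 : ℝ) : ℂ)‖ = ε / 2 := by
    rw [Complex.norm_real, norm_of_nonneg (half_pos ε0).le]
  obtain ⟨F, F1, F2⟩ := hS (fun w => s + (ε / 2 : ℝ) * w) 2 one_lt_two (by fun_prop) fun z hz =>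
    hε (by
      rw [mem_ball_zero_iff] at hz
      rw [mem_ball_iff_norm, add_sub_cancel_left, norm_mul, e1]
      nlinarith)
  have m0 : (0 : ℂ) ∈ ball (0 : ℂ) 1 := mem_ball_self one_pos
  have nb := isOpen_ball.mem_nhds m0
  obtain ⟨i, hi, rfl⟩ := (F2 0 m0 y).1 (by simpa using hy)
  obtain ⟨t, t0, ht⟩ := rep_mk hi
  rw [ht, dotProduct_smul, smul_eq_zero, or_iff_right t0] at h0
  obtain ⟨c, hc⟩ := ((dot_diff (l := l) (F1 i).1).differentiableAt nb).isBigO_sub.bound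
  have p := sq_pos' hi
  have h2 := ((sq_cd isOpen_ball (F1 i).1).continuousOn.continuousAt nb).eventually
    (lt_mem_nhds (half_lt_self p))
  have h3 : Tendsto (fun t => (t - s) / (ε / 2 : ℝ)) (𝓝 s) (𝓝 0) :=
    Continuous.tendsto' (by fun_prop) _ _ (by simp)
  refine ⟨c ^ 2 / (ε / 2) ^ 2 / (H4.sq (F i 0) / 2), ?_⟩
  filter_upwards [h3.eventually hc, h3.eventually h2, h3.eventually nb] with t a1 a2 a3
  refine ⟨Projectivization.mk ℂ _ ((F1 i).2 _ a3), ?_, ?_⟩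
  · have := (F2 _ a3 _).2 ⟨i, (F1 i).2 _ a3, rfl⟩
    simpa only [mul_div_cancel₀ _ e0, add_sub_cancel] using this
  · rw [h0, sub_zero, sub_zero, norm_div, e1] at a1
    rw [mm_mk, mm]
    calc _ ≤ (c * (‖t - s‖ / (ε / 2))) ^ 2 / (H4.sq (F i 0) / 2) := by gcongr
      _ = _ := by ring

lemma upper (hS : Sheets S δ Y) {τ : Finset ℂ} (h : ∀ t ∈ τ, t ∉ S ∧ ∃ y ∈ Y t, l ⬝ᵥ y.rep = 0) :
    ∃ K, 0 < K ∧ ∀ (t : ℂ) (v : Fin δ → Fin n → ℂ),
      (∀ y ∈ Y t, ∃ i h, y = Projectivization.mk ℂ (v i) h) →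
      ∏ i, mm l (v i) ≤ K * ∏ s ∈ τ, (‖t - s‖ ^ 2 / (1 + ‖t‖ ^ 2)) := by
  have key : ∀ (T : Finset (Fin δ)) (v : Fin δ → Fin n → ℂ),
      ∏ i ∈ T, mm l (v i) ≤ H4.sq (star l) ^ T.card := fun T v => by
    rw [← Finset.prod_const]
    exact Finset.prod_le_prod (fun i _ => mm_nn _ _) fun i _ => mm_le _ _
  obtain ⟨K, K0, hK⟩ := comb (fun t x => ∃ v : Fin δ → Fin n → ℂ,
    (∀ y ∈ Y t, ∃ i h, y = Projectivization.mk ℂ (v i) h) ∧ x = ∏ i, mm l (v i)) _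
    (fun t x ⟨v, _, e⟩ => e ▸ key _ v) τ fun s hs => by
      obtain ⟨a, y, b, c⟩ := h s hs
      obtain ⟨K, hK⟩ := near hS a b c
      refine ⟨H4.sq (star l) ^ (δ - 1) * K, hK.mono ?_⟩
      rintro t ⟨y, y1, y2⟩ x ⟨v, v1, rfl⟩
      obtain ⟨i, hi, rfl⟩ := v1 y y1
      have := key (Finset.univ.erase i) v
      rw [Finset.card_erase_of_mem (Finset.mem_univ i), Finset.card_univ, Fintype.card_fin] at this
      rw [mm_mk] at y2
      rw [← Finset.prod_erase_mul _ _ (Finset.mem_univ i), mul_assoc]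
      exact mul_le_mul this y2 (mm_nn _ _) (pow_nonneg (sq_nn _) _)
  exact ⟨K, K0, fun t v hv => hK t _ ⟨v, hv, rfl⟩⟩

lemma lower (hS : Sheets S δ Y) {a : ℂ} (ha : a ∉ S) (h : ∀ y ∈ Y a, l ⬝ᵥ y.rep ≠ 0) :
    ∃ c, 0 < c ∧ ∀ y ∈ Y a, c ≤ mm l y.rep := by
  obtain ⟨F, F1, F2⟩ := hS (fun _ => a) 2 one_lt_two (by fun_prop) fun _ _ => ha
  have m0 : (0 : ℂ) ∈ ball (0 : ℂ) 1 := mem_ball_self one_pos
  have f : (Y a).Finite := (finite_range fun i =>
    Projectivization.mk ℂ (F i 0) ((F1 i).2 0 m0)).subset fun y hy => by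
      obtain ⟨i, hi, rfl⟩ := (F2 0 m0 y).1 hy
      exact ⟨i, rfl⟩
  have : ∀ᶠ c in 𝓝[>] (0 : ℝ), ∀ y ∈ Y a, c ≤ mm l y.rep :=
    f.eventually_all.2 fun y hy => eventually_nhdsWithin_of_eventually_nhds (ge_mem_nhds
      (div_pos (pow_pos (norm_pos_iff.2 (h y hy)) 2) (sq_pos' y.rep_nonzero)))
  exact (eventually_mem_nhdsWithin.and this).exists

theorem ht : HtStmt := by
  intro n δ S τ Y l a hS hτ ha hl
  obtain ⟨K, K0, hK⟩ := upper hS hτ
  obtain ⟨c, c0, hc⟩ := lower hS ha hl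
  have p0 : ∏ s ∈ τ, (a - s) ≠ 0 := Finset.prod_ne_zero_iff.2 fun s hs => sub_ne_zero.2 fun e => by
    obtain ⟨-, y, y1, y2⟩ := hτ s hs
    exact hl y (e ▸ y1) y2
  refine ⟨π / 2 * (log K - log (c ^ δ / ‖∏ s ∈ τ, (a - s)‖ ^ 2)), ?_⟩
  rintro ψ F r hψ rfl ⟨F1, F2⟩ r0 r1
  have m0 : (0 : ℂ) ∈ ball (0 : ℂ) 1 := mem_ball_self one_pos
  have G1 : Crv (ball 0 1) (gr ψ) := ⟨differentiableOn_pi.2 (Fin.forall_fin_two.2
    ⟨differentiableOn_const 1, hψ⟩), fun z _ e => one_ne_zero (congrFun e 0)⟩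
  have G2 : ∀ z, H4.sq (gr ψ z) = 1 + ‖ψ z‖ ^ 2 := fun z => by simp [H4.sq, gr]
  set u : ℂ → ℝ := fun z =>
    log K + ∑ i, log (H4.sq (F i z)) - (τ.card : ℝ) • log (H4.sq (gr ψ z)) with hu
  have c1 := fun i => (lapQ n _ _ isOpen_ball (F1 i)).1.continuousOn
  have c2 := (lapQ 2 _ _ isOpen_ball G1).1.continuousOn
  have uc : ContinuousOn u (ball 0 1) :=
    (continuousOn_const.add (continuousOn_finsetSum _ fun i _ => c1 i)).sub (c2.fun_const_smul _)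
  have ah : AnalyticOnNhd ℂ (fun z => ∏ i, l ⬝ᵥ F i z) (ball 0 1) :=
    Finset.analyticOnNhd_fun_prod _ fun i _ => (dot_diff (F1 i).1).analyticOnNhd isOpen_ball
  have ap : AnalyticOnNhd ℂ (fun z => ∏ s ∈ τ, (ψ z - s)) (ball 0 1) :=
    Finset.analyticOnNhd_fun_prod _ fun s _ => (hψ.sub_const s).analyticOnNhd isOpen_ball
  set f : ℂ → ℂ := fun z => (∏ i, l ⬝ᵥ F i z) / ∏ s ∈ τ, (ψ z - s) with hf
  have pF : ∀ z ∈ ball (0 : ℂ) 1, ∀ i, 0 < H4.sq (F i z) := fun z hz i => sq_pos' ((F1 i).2 z hz)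
  have b0 : ∀ z, ∏ i, mm l (F i z) = ‖∏ i, l ⬝ᵥ F i z‖ ^ 2 / ∏ i, H4.sq (F i z) := fun z => by
    simp only [mm, Finset.prod_div_distrib, norm_prod, Finset.prod_pow]
  have b1 : ∀ z ∈ ball (0 : ℂ) 1, ‖f z‖ ^ 2 ≤ exp (u z) := fun z hz => by
    have e1 := hK (ψ z) (fun i => F i z) fun y hy => (F2 z hz y).1 hy
    have e2 := Finset.prod_pos fun i (_ : i ∈ Finset.univ) => pF z hz i
    rw [b0, Finset.prod_div_distrib, Finset.prod_const, Finset.prod_pow, ← norm_prod,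
      div_le_iff₀ e2] at e1
    simp only [hu, hf, G2, smul_eq_mul]
    rw [← log_pow, ← log_prod fun i _ => (pF z hz i).ne', exp_sub, exp_add, exp_log K0, exp_log e2,
      exp_log (by positivity), norm_div, div_pow]
    refine div_le_of_le_mul₀ (by positivity) (by positivity) (e1.trans_eq ?_)
    ring
  have b2 : ∀ z ∈ ball (0 : ℂ) 1, Tendsto (fun w => exp (u w)) (𝓝[≠] z) (𝓝 (exp (u z))) :=
    fun z hz => (uc.continuousAt (isOpen_ball.mem_nhds hz)).rexp.mono_left nhdsWithin_le_nhds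
  have b3 : ∀ z ∈ ball (0 : ℂ) 1, ∀ᶠ w in 𝓝[≠] z, ‖f w‖ ^ 2 ≤ exp (u w) := fun z hz =>
    eventually_nhdsWithin_of_eventually_nhds
      (Filter.eventually_of_mem (isOpen_ball.mem_nhds hz) b1)
  obtain ⟨g, g1, g2, -⟩ := rem_on (f := f) isOpen_ball fun z hz =>
    rem_of_bdd ((ah z hz).meromorphicAt.fun_div (ap z hz).meromorphicAt) (B := exp (u z) + 2) (by
      filter_upwards [b3 z hz, (b2 z hz).eventually (gt_mem_nhds (lt_add_one _))] with w a1 a2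
      nlinarith [sq_nonneg (‖f w‖ - 1), exp_pos (u z)])
  have g3 : ∀ z ∈ ball (0 : ℂ) 1, Tendsto f (𝓝[≠] z) (𝓝 (g z)) := fun z hz =>
    ((g1.continuousOn.continuousAt (isOpen_ball.mem_nhds hz)).mono_left
      nhdsWithin_le_nhds).congr' (g2 z hz).symm
  have g4 : g 0 = f 0 := tendsto_nhds_unique (g3 0 m0)
    (((ah 0 m0).continuousAt.div (ap 0 m0).continuousAt p0).mono_left nhdsWithin_le_nhds)
  have e2 := Finset.prod_pos fun i (_ : i ∈ Finset.univ) => pF 0 m0 i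
  have g5 : c ^ δ / ‖∏ s ∈ τ, (ψ 0 - s)‖ ^ 2 * ∏ i, H4.sq (F i 0) ≤ ‖g 0‖ ^ 2 := by
    have e1 : ∏ _i : Fin δ, c ≤ ∏ i, mm l (F i 0) :=
      Finset.prod_le_prod (fun _ _ => c0.le) fun i _ => by
        rw [← mm_mk l ((F1 i).2 0 m0)]
        exact hc _ ((F2 0 m0 _).2 ⟨i, _, rfl⟩)
    rw [b0, Finset.prod_const, Finset.card_univ, Fintype.card_fin, le_div_iff₀ e2] at e1
    rw [g4, hf, norm_div, div_pow, div_mul_eq_mul_div]
    gcongr
  have p1 : 0 < c ^ δ / ‖∏ s ∈ τ, (ψ 0 - s)‖ ^ 2 := by positivity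
  have sb : sphere (0 : ℂ) r ⊆ ball 0 1 := sphere_subset_closedBall.trans (closedBall_subset_ball r1)
  have j1 := jen r0 ((g1.analyticOnNhd isOpen_ball).mono (closedBall_subset_ball r1))
    (fun e => by rw [e, norm_zero] at g5; nlinarith [mul_pos p1 e2]) (uc.mono sb) fun z hz =>
      le_of_tendsto_of_tendsto ((g3 z (sb hz)).norm.pow 2) (b2 z (sb hz)) (b3 z (sb hz))
  have j2 := log_le_log (mul_pos p1 e2) g5
  have i1 := fun i => ((c1 i).mono sb).circleIntegrable r0.le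
  have i2 := (c2.mono sb).circleIntegrable r0.le
  have i3 := CircleIntegrable.fun_sum Finset.univ fun i _ => i1 i
  rw [log_mul p1.ne' e2.ne', log_prod fun i _ => (pF 0 m0 i).ne'] at j2
  rw [hu, circleAverage_fun_sub (f₁ := fun z => log K + ∑ i, log (H4.sq (F i z)))
      (f₂ := fun z => (τ.card : ℝ) • log (H4.sq (gr ψ z)))
      ((circleIntegrable_const _ 0 r).add i3) i2.const_smul,
    circleAverage_fun_add (circleIntegrable_const _ 0 r) i3, circleAverage_const,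
    circleAverage_fun_sum fun i _ => i1 i, circleAverage_fun_smul, smul_eq_mul] at j1
  have j3 : 0 ≤ (τ.card : ℝ) * log (H4.sq (gr ψ 0)) :=
    mul_nonneg (Nat.cast_nonneg _) (log_nonneg (by rw [G2]; nlinarith [norm_nonneg (ψ 0)]))
  simp only [tn_eq G1 r0 r1, fun i => tn_eq (F1 i) r0 r1]
  rw [← Finset.mul_sum, Finset.sum_sub_distrib, mul_left_comm, ← mul_add]
  refine mul_le_mul_of_nonneg_left ?_ (by positivity)
  linarith

end Pool.Agent.MP_c69980_ag.H55
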